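import Mathlib
import Pool.Agent.T9h66.AC.Gpi2
import Pool.Agent.T9h66.AC.Limit

/-!
# Algebraically closed associative algebras exist

Let `K` be a field of characteristic zero with two commuting derivations `D₁`, `D₂` in which every
nonconstant differential polynomial in one unknown has a zero, and which contains `s₁`, `s₂` with
`D_i s_j = δ_ij`. On the series `∑ a_γ ħ^γ` (`γ ∈ ℚ`, well ordered support, `a_γ ∈ K`) with central
`ħ` we put the product determined by `a ⋆ b = ∑ ħ^k / k! · D₁^k a · D₂^k b` for `a, b ∈ K`. This is
a division ring `R`, its centre `P` consists of the series with coefficients killed by `D₁` and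
`D₂`, every nonconstant generalized polynomial function of one variable on `R` has a zero (the
leading coefficients of the increments are nonconstant differential polynomials), and a
generalized polynomial with constant values is a constant (Amitsur). So every equation in one
unknown over `R` with `f ∉ R` is solvable, and by the reduction in `OneVariable.lean` the same
holds for equations in countably many unknowns.
-/

set_option autoImplicit false

namespace Pool.Agent.Results.MP_4b1745_al.Existence

open Pool.Agent.Results.MP_4b1745_al.OneVariable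
open Pool.Agent.T9h66.AC Pool.Agent.T9h66.AC.Ser BiDiff

universe u

section
variable {K : Type u} [Field K] [CharZero K] [BiDiff K]

theorem c_natCast (n : ℕ) : ((n : Ser K)).c 0 = n := by
  induction n with
  | zero => rw [Nat.cast_zero, Nat.cast_zero]; rfl
  | succ n ih =>
    rw [Nat.cast_succ, Nat.cast_succ, c_add, ih, one_def, c_single_same]

theorem charZero_ser : CharZero (Ser K) := by
  refine ⟨fun m n h => ?_⟩
  have h1 := congrArg (fun x : Ser K => x.c 0) h
  simp only [c_natCast] at h1
  exact_mod_cast h1

theorem charZero_center : CharZero (Subring.center (Ser K)) := by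
  refine ⟨fun m n h => ?_⟩
  have h1 := congrArg (fun x : Subring.center (Ser K) => ((x : Ser K)).c 0) h
  simp only [Subring.coe_natCast, c_natCast] at h1
  exact_mod_cast h1

theorem central_mem (d : Ser K) (h : ∀ e : Ser K, d * e = e * d) :
    d ∈ Set.range (algebraMap (Subring.center (Ser K)) (Ser K)) :=
  ⟨⟨d, Subring.mem_center_iff.2 fun e => (h e).symm⟩, rfl⟩

/-- A division ring with `a b - b a = 1` has infinite degree over a central field of
characteristic zero. -/
theorem not_finite {P : Type u} [Field P] [CharZero P] {D : Type u} [DivisionRing D] [Algebra P D]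
    {a b : D} (h : a * b - b * a = 1) : ¬ FiniteDimensional P D := by
  intro hfin
  have h1 : LinearMap.trace P D (Algebra.lmul P D a * Algebra.lmul P D b) =
      LinearMap.trace P D (Algebra.lmul P D b * Algebra.lmul P D a) := LinearMap.trace_mul_comm P _ _
  have h2 : Algebra.lmul P D a * Algebra.lmul P D b - Algebra.lmul P D b * Algebra.lmul P D a =
      1 := by
    rw [← map_mul, ← map_mul, ← map_sub, h, map_one]
  have h3 := congrArg (LinearMap.trace P D) h2
  rw [map_sub, h1, sub_self, LinearMap.trace_one] at h3
  have h4 : Module.finrank P D = 0 := by exact_mod_cast h3.symm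
  have h5 : 0 < Module.finrank P D := Module.finrank_pos
  omega

/-- Every element of the free product is represented by a generalized polynomial. -/
theorem exists_gf (f : FreeOver (Subring.center (Ser K)) (Ser K) Unit) :
    ∃ g : FreeAlgebra ℤ (Ser K ⊕ Unit), ∀ c : Ser K, evalAt (fun _ => c) f = gf g c := by
  induction f using induct with
  | hc a =>
    refine ⟨FreeAlgebra.ι ℤ (Sum.inl a), fun c => ?_⟩
    rw [gf, ev_inl]
    exact lift_const (AlgHom.id (Subring.center (Ser K)) (Ser K)) (fun _ : Unit => c) a
  | hv i =>
    refine ⟨FreeAlgebra.ι ℤ (Sum.inr ()), fun c => ?_⟩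
    rw [gf, ev_inr]
    exact lift_var (AlgHom.id (Subring.center (Ser K)) (Ser K)) (fun _ : Unit => c) i
  | hadd f f' hf hf' =>
    obtain ⟨g, hg⟩ := hf
    obtain ⟨g', hg'⟩ := hf'
    refine ⟨g + g', fun c => ?_⟩
    rw [map_add, hg, hg', gf, gf, gf, map_add]
  | hmul f f' hf hf' =>
    obtain ⟨g, hg⟩ := hf
    obtain ⟨g', hg'⟩ := hf'
    refine ⟨g * g', fun c => ?_⟩
    rw [map_mul, hg, hg', gf, gf, gf, map_mul]

/-- The division ring of series is algebraically closed over its centre. -/
theorem algClosed (hDC : DC K)
    (hs : ∃ s1 s2 : K, d1 s1 = 1 ∧ d2 s1 = 0 ∧ d1 s2 = 0 ∧ d2 s2 = 1) :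
    AlgClosedIn (Subring.center (Ser K)) (Ser K) ℕ := by
  obtain ⟨s1, s2, h11, h12, h21, h22⟩ := hs
  have hH := heisenberg h11 h12 h22
  have := charZero_center (K := K)
  have hinf : ¬ FiniteDimensional (Subring.center (Ser K)) (Ser K) := not_finite hH
  have hInf : Infinite (Subring.center (Ser K)) := CharZero.infinite _
  rw [OneVariable.result]
  constructor
  · intro hsurj
    have hcomm : ∀ x y : Ser K, x * y = y * x := by
      intro x y
      obtain ⟨z, rfl⟩ := hsurj x
      exact Algebra.commutes z y
    rw [hcomm, sub_self] at hH
    exact zero_ne_one hH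
  · intro f hf
    obtain ⟨g, hg⟩ := exists_gf f
    by_cases hne : ∃ c c', gf g c ≠ gf g c'
    · obtain ⟨x, hx⟩ := exists_root hDC g hne
      exact ⟨fun _ => x, by rw [hg, hx]⟩
    · push Not at hne
      exact absurd (gpi_free central_mem hinf f (gf g 0) fun c => by rw [hg, hne c 0]) hf

end

/-- There are a field `P` and an associative `P`-algebra `R`, even a division ring, over which
every equation `f = 0` with `f ∈ R * P⟨x_0, x_1, …⟩` and `f ∉ R` has a solution in `R`. -/
theorem result : ∃ (P R : Type) (_ : Field P) (_ : DivisionRing R) (_ : Algebra P R),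
    AlgClosedIn P R ℕ := by
  obtain ⟨F, hDC, hs⟩ := exists_DC
  exact ⟨Subring.center (Ser F.K), Ser F.K, inferInstance, inferInstance, inferInstance,
    algClosed hDC hs⟩

end Pool.Agent.Results.MP_4b1745_al.Existence
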